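import Pool.Agent.W290.LG.Stm
import Pool.Agent.H881R2.Mat.RepIff

/-!
# Project LG, part C: a plane configuration over `K` gives a representation of `inst G` over `K`

Port of the second direction of `Pool.Agent.H881R2.Mat.repQ_iff` to a field of characteristic `0`.
-/

set_option autoImplicit false

namespace Pool.Agent.W532.LG

open Pool.Agent Pool.Agent.NPC Pool.Agent.H881R2.Mat Pool.Agent.W290.LG

variable {K : Type} [Field K]

theorem det3K_eq_det (a b c : Fin 3 → K) :
    det3K a b c = Matrix.det (Matrix.of ![a, b, c]) := by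
  rw [Matrix.det_fin_three]
  simp [det3K]
  ring

theorem li_iff_det3K (a b c : Fin 3 → K) :
    LinearIndependent K ![a, b, c] ↔ det3K a b c ≠ 0 := by
  rw [det3K_eq_det, ← isUnit_iff_ne_zero, ← Matrix.isUnit_iff_isUnit_det,
    ← Matrix.linearIndependent_rows_iff_isUnit]
  rfl

theorem li_finsetK {n m : ℕ} (v : Fin n → Fin m → K) {i j k : Fin n} (hij : i < j) (hjk : j < k) :
    LinearIndependent K (fun x : ({i, j, k} : Finset (Fin n)) => v x) ↔
      LinearIndependent K ![v i, v j, v k] := by
  rw [← linearIndependent_equiv (eqv3 hij hjk)]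
  have : ((fun x : ({i, j, k} : Finset (Fin n)) => v x) ∘ (eqv3 hij hjk)) = ![v i, v j, v k] := by
    funext x
    fin_cases x <;> rfl
  rw [this]

theorem finrank_span_finsetK {n m : ℕ} (v : Fin n → Fin m → K) (B : Finset (Fin n))
    (h : LinearIndependent K (fun i : B => v i)) :
    Module.finrank K (Submodule.span K (v '' (B : Set (Fin n)))) = B.card := by
  have h1 : v '' (B : Set (Fin n)) = Set.range (fun i : B => v i) := by
    rw [Set.image_eq_range]
    rfl
  rw [h1, finrank_span_eq_card h]
  simp

theorem repK_of_planeRepK (G : List Gad) (h : PlaneRepK K G) : RepK K (inst G) := by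
  classical
  obtain ⟨p, hp⟩ := h
  have hp' : ∀ i j k : Fin (labs G).length,
      (det3K (p (labs G)[i]) (p (labs G)[j]) (p (labs G)[k]) = 0 ↔
        dep G (labs G)[i] (labs G)[j] (labs G)[k] = true) := fun i j k =>
    hp _ (List.getElem_mem _) _ (List.getElem_mem _) _ (List.getElem_mem _)
  let v : Fin (labs G).length → Fin 3 → K := fun i => p (labs G)[i]
  have htop : ∀ B : Finset (Fin (labs G).length), LinearIndependent K (fun i : B => v i) →
      B.card = 3 → Submodule.span K (v '' (B : Set (Fin (labs G).length))) = ⊤ := by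
    intro B hB hc
    apply Submodule.eq_top_of_finrank_eq
    rw [finrank_span_finsetK v B hB, hc]
    simp
  have hli : ∀ {i j k : Fin (labs G).length}, i < j → j < k →
      (LinearIndependent K (fun x : ({i, j, k} : Finset (Fin (labs G).length)) => v x) ↔
        dep G (labs G)[i] (labs G)[j] (labs G)[k] = false) := by
    intro i j k hij hjk
    rw [li_finsetK v hij hjk, li_iff_det3K, ← Bool.not_eq_true, ← hp' i j k]
  have hc3 : ∀ {i j k : Fin (labs G).length}, i < j → j < k →
      ({i, j, k} : Finset (Fin (labs G).length)).card = 3 := by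
    intro i j k hij hjk
    rw [Finset.card_eq_three]
    exact ⟨_, _, _, hij.ne, (hij.trans hjk).ne, hjk.ne, rfl⟩
  have hall : Submodule.span K (Set.range v) = ⊤ := by
    rw [eq_top_iff, ← htop _ ((hli (i0_lt G) (i1_lt G)).2 (dep_basis G))
      (hc3 (i0_lt G) (i1_lt G))]
    exact Submodule.span_mono (Set.image_subset_range _ _)
  refine ⟨3, v, ?_⟩
  change ∀ B : Finset (Fin (labs G).length), (Listed (n := (labs G).length) (inst G).2 B ↔
      (LinearIndependent K (fun i : B => v i) ∧
        Submodule.span K (v '' (B : Set (Fin (labs G).length))) =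
          Submodule.span K (Set.range v)))
  intro B
  rw [hall]
  constructor
  · intro hB
    obtain ⟨i, j, k, hij, hjk, hd, rfl⟩ := (listed_iff G B).1 hB
    exact ⟨(hli hij hjk).2 hd, htop _ ((hli hij hjk).2 hd) (hc3 hij hjk)⟩
  · rintro ⟨h1, h2⟩
    have hc : B.card = 3 := by
      rw [← finrank_span_finsetK v B h1, h2]
      simp
    obtain ⟨i, j, k, hij, hjk, rfl⟩ := card3_sorted hc
    exact (listed_sorted G hij hjk).2 ((hli hij hjk).1 h1)

theorem t_C : Pool.Agent.W290.LG.S_C := by
  intro K _ _ G h
  exact repK_of_planeRepK G h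

end Pool.Agent.W532.LG
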